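import Pool.Agent.Lib.MP_c86c76_al.S.Idx

/-!
Harmonic cocycles: every cocycle is a limit of coboundaries plus a harmonic one.
-/

set_option autoImplicit false

namespace Pool.Agent.MT

open Pool.Agent.Lib.MP_c8f1ce_al.HN Filter Topology
open scoped InnerProductSpace

variable {G : Type} [Group G] {H : Type} [NormedAddCommGroup H] [InnerProductSpace ℂ H]

/-- The origin is fixed by `K` and harmonic against the vectors fixed by `K`. -/
def Harm (β : G →* (H ≃ᵃⁱ[ℂ] H)) (K : Set G) {J : Type} [Fintype J] (g : J → G) (c : J → ℝ) :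
    Prop :=
  (∀ k ∈ K, β k 0 = 0) ∧ ∀ v, (∀ k ∈ K, lin β k v = v) →
    ∑ j, (c j : ℂ) * ⟪v, β (g j) 0 + β (g j)⁻¹ 0⟫_ℂ = 0

theorem exists_harm [CompleteSpace H] (α : G →* (H ≃ᵃⁱ[ℂ] H)) (K : Set G) {J : Type} [Fintype J]
    (g : J → G) (c : J → ℝ) (hc : ∀ j, 0 < c j)
    (hg : Subgroup.closure (K ∪ Set.range g) = ⊤) (hK : ∃ y, ∀ k ∈ K, α k y = y) :
    ∃ β : G →* (H ≃ᵃⁱ[ℂ] H), lin β = lin α ∧ Harm β K g c ∧
      ∃ y : ℕ → H, ∀ s, Tendsto (fun n => α s (y n) - y n) atTop (𝓝 (β s 0)) := by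
  obtain ⟨y, hy⟩ := hK
  let r : J → ℂ := fun j => (√(c j) : ℝ)
  have r0 : ∀ j, r j ≠ 0 := fun j => Complex.ofReal_ne_zero.2 (Real.sqrt_pos.2 (hc j)).ne'
  let L : fix (lin α) K →ₗ[ℂ] PiLp 2 fun _ : J => H :=
    { toFun := fun v => WithLp.toLp 2 fun j => r j • (v - lin α (g j) v)
      map_add' := fun u v => PiLp.ext fun j => by
        change r j • ((u + v : H) - lin α (g j) (u + v)) = r j • _ + r j • _
        rw [← smul_add, map_add, add_sub_add_comm]
      map_smul' := fun a v => PiLp.ext fun j => by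
        change r j • ((a • v : H) - lin α (g j) (a • v)) = a • r j • _
        rw [map_smul, ← smul_sub, smul_comm] }
  let W := L.range.topologicalClosure
  let d : PiLp 2 fun _ : J => H := WithLp.toLp 2 fun j => r j • (α (g j) y - y)
  obtain ⟨u, hu, hl⟩ := mem_closure_iff_seq_limit.1 (W.starProjection_apply_mem d)
  choose v hv using hu
  have e : ∀ s n, α s (v n + y) - (v n + y) = (α s y - y) - (v n - lin α s (v n)) :=
    fun s n => by rw [act_add]; abel
  have cj : ∀ j, Tendsto (fun n => α (g j) (v n + y) - (v n + y)) atTop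
      (𝓝 ((r j)⁻¹ • (d - W.starProjection d) j)) := fun j =>
    ((((PiLp.continuous_apply 2 _ j).tendsto _).comp (hl.const_sub d)).const_smul (r j)⁻¹).congr
      fun n => by
        rw [e, Function.comp_apply, ← hv n]
        change (r j)⁻¹ • (r j • (α (g j) y - y) - r j • (v n - lin α (g j) (v n))) = _
        rw [← smul_sub, inv_smul_smul₀ (r0 j)]
  have ck : ∀ k ∈ K, ∀ n, α k (v n + y) - (v n + y) = 0 := fun k m n => by
    rw [e, hy k m, (v n).2 k m, sub_self, sub_self, sub_self]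
  have all : ∀ s, ∃ x, Tendsto (fun n => α s (v n + y) - (v n + y)) atTop (𝓝 x) := fun s => by
    have : s ∈ Subgroup.closure (K ∪ Set.range g) := hg ▸ Subgroup.mem_top s
    induction this using Subgroup.closure_induction with
    | mem x hx =>
      rcases hx with m | ⟨j, rfl⟩
      · exact ⟨0, tendsto_const_nhds.congr fun n => (ck x m n).symm⟩
      · exact ⟨_, cj j⟩
    | one => exact ⟨0, tendsto_const_nhds.congr fun n => by rw [act_one, sub_self]⟩
    | mul a b _ _ ha hb =>
      obtain ⟨x, hx⟩ := ha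
      obtain ⟨z, hz⟩ := hb
      exact ⟨_, ((((lin α a).continuous.tendsto _).comp hz).add hx).congr
        fun n => (act_coc _ _ _ _).symm⟩
    | inv a _ ha =>
      obtain ⟨x, hx⟩ := ha
      exact ⟨_, (((lin α a⁻¹).continuous.tendsto _).comp hx).neg.congr fun n => by
        rw [Function.comp_apply, lin_sub, act_inv, neg_sub]⟩
  choose b hb using all
  have co : ∀ s t, b (s * t) = lin α s (b t) + b s := fun s t => tendsto_nhds_unique (hb _)
    (((((lin α s).continuous.tendsto _).comp (hb t)).add (hb s)).congr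
      fun n => (act_coc _ _ _ _).symm)
  have b0 : ∀ s, aff (lin α) b co s 0 = b s := fun s => by rw [aff_apply, map_zero, zero_add]
  refine ⟨aff (lin α) b co, rfl, ⟨fun k m => (b0 k).trans (tendsto_nhds_unique (hb k)
    (tendsto_const_nhds.congr fun n => (ck k m n).symm)), fun w hw => ?_⟩, _, fun s =>
      (b0 s).symm ▸ hb s⟩
  have o := W.sub_starProjection_mem_orthogonal d (L ⟨w, hw⟩)
    (L.range.le_topologicalClosure ⟨_, rfl⟩)
  rw [PiLp.inner_apply] at o
  refine Eq.trans (Finset.sum_congr rfl fun j _ => ?_) o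
  have i1 : (d - W.starProjection d) j = r j • b (g j) := by
    rw [tendsto_nhds_unique (hb (g j)) (cj j), smul_inv_smul₀ (r0 j)]
  have i2 : lin α (g j) (b (g j)⁻¹) = -b (g j) := by
    have := act_inv' (aff (lin α) b co) (g j) 0
    rw [b0, aff_apply] at this
    exact eq_neg_of_add_eq_zero_left this
  rw [i1, b0, b0]
  change _ = ⟪r j • (w - lin α (g j) w), _⟫_ℂ
  rw [inner_smul_left, inner_smul_right, inner_add_right, inner_sub_left, Complex.conj_ofReal,
    ← (lin α (g j)).inner_map_map w (b (g j)⁻¹), i2, inner_neg_right, ← mul_assoc,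
    ← Complex.ofReal_mul, Real.mul_self_sqrt (hc j).le, sub_eq_add_neg]

/-- If harmonic cocycles vanish on a normal subset `P`, then `RA G P`. -/
theorem ra_of_harm (K : Set G) {J : Type} [Fintype J] (g : J → G) (c : J → ℝ)
    (hc : ∀ j, 0 < c j) (hg : Subgroup.closure (K ∪ Set.range g) = ⊤)
    (hK : FH (Subgroup.closure K)) {S P : Set G} (hP : ∀ x, ∀ p ∈ P, x⁻¹ * p * x ∈ P)
    (hS : P ⊆ Subgroup.closure (K ∪ S))
    (cert : ∀ (H : Type) [NormedAddCommGroup H] [InnerProductSpace ℂ H] [CompleteSpace H]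
      (β : G →* (H ≃ᵃⁱ[ℂ] H)), Harm β K g c → ∀ s ∈ S, β s 0 = 0) : RA G P := by
  intro H _ _ _ α e T ε hε
  obtain ⟨β, h1, h2, y, h3⟩ := exists_harm α K g c hc hg
    ((hK H (α.comp (Subgroup.subtype _))).imp fun _ hx k m => hx ⟨k, Subgroup.subset_closure m⟩)
  have z : ∀ p ∈ P, β p 0 = 0 := fun p m =>
    fix_closure β (fun s m => m.elim (h2.1 s) (cert H β h2 s)) (hS m)
  have z' : ∀ s, β s 0 = 0 := fun s => e _ fun p m => by
    have := act_eq β p (β s 0)
    rw [z p m, add_zero, h1] at this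
    rw [← this, ← act_mul, show p * s = s * (s⁻¹ * p * s) by group, act_mul, z _ (hP s p m)]
  refine (((eventually_all_finset T).2 fun s _ => ?_ :
    ∀ᶠ n in atTop, ∀ s ∈ T, ‖α s (y n) - y n‖ < ε).exists).elim fun n hn => ⟨_, hn⟩
  exact (h3 s).norm.eventually_lt_const (by rwa [z', norm_zero])

/-- If harmonic cocycles vanish, then all actions have almost fixed points. -/
theorem afp_of_harm (K : Set G) {J : Type} [Fintype J] (g : J → G) (c : J → ℝ)
    (hc : ∀ j, 0 < c j) (hg : Subgroup.closure (K ∪ Set.range g) = ⊤)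
    (hK : FH (Subgroup.closure K)) {S : Set G} (hS : Subgroup.closure (K ∪ S) = ⊤)
    (cert : ∀ (H : Type) [NormedAddCommGroup H] [InnerProductSpace ℂ H] [CompleteSpace H]
      (β : G →* (H ≃ᵃⁱ[ℂ] H)), Harm β K g c → ∀ s ∈ S, β s 0 = 0) : AFP G := by
  intro H _ _ _ α T ε hε
  obtain ⟨β, h1, h2, y, h3⟩ := exists_harm α K g c hc hg
    ((hK H (α.comp (Subgroup.subtype _))).imp fun _ hx k m => hx ⟨k, Subgroup.subset_closure m⟩)
  have z' : ∀ s, β s 0 = 0 := fun s =>
    fix_closure β (fun s m => m.elim (h2.1 s) (cert H β h2 s)) (hS ▸ Subgroup.mem_top s)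
  refine (((eventually_all_finset T).2 fun s _ => ?_ :
    ∀ᶠ n in atTop, ∀ s ∈ T, ‖α s (y n) - y n‖ < ε).exists).elim fun n hn => ⟨_, hn⟩
  exact (h3 s).norm.eventually_lt_const (by rwa [z', norm_zero])

end Pool.Agent.MT
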