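import Pool.Agent.Lib.MP_c86c76_al.S.Ultra

/-!
Almost fixed points: invariant subspaces, central extensions, subgroups of finite index.
-/

set_option autoImplicit false

namespace Pool.Agent.MT

open Pool.Agent.Lib.MP_c8f1ce_al.HN
open scoped InnerProductSpace

variable {G : Type} [Group G] {H : Type} [NormedAddCommGroup H] [InnerProductSpace ℂ H]

/-- The action has almost fixed points. -/
def AF (α : G →* (H ≃ᵃⁱ[ℂ] H)) : Prop :=
  ∀ (S : Finset G) (ε : ℝ), 0 < ε → ∃ x, ∀ s ∈ S, ‖α s x - x‖ < ε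

/-- Every action whose linear part has no nonzero vector fixed by `P` has almost fixed points. -/
def RA (G : Type) [Group G] (P : Set G) : Prop :=
  ∀ (H : Type) [NormedAddCommGroup H] [InnerProductSpace ℂ H] [CompleteSpace H]
    (α : G →* (H ≃ᵃⁱ[ℂ] H)), (∀ v, (∀ p ∈ P, lin α p v = v) → v = 0) → AF α

theorem AFP.ra (h : AFP G) (P : Set G) : RA G P := fun H _ _ _ α _ => h H α

theorem RA.mono {P Q : Set G} (h : RA G P) (hP : Q ⊆ P) : RA G Q :=
  fun H _ _ _ α e => h H α fun v hv => e v fun p m => hv p (hP m)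

theorem AF.comp {G' : Type} [Group G'] {α : G →* (H ≃ᵃⁱ[ℂ] H)} (h : AF α) (f : G' →* G) :
    AF (α.comp f) := fun S ε hε => by
  classical
  exact (h (S.image f) ε hε).imp fun x hx s m => hx _ (Finset.mem_image_of_mem f m)

theorem AF.of_comp {G' : Type} [Group G'] {α : G →* (H ≃ᵃⁱ[ℂ] H)} (f : G' →* G)
    (hf : Function.Surjective f) (h : AF (α.comp f)) : AF α := fun S ε hε => by
  classical
  obtain ⟨x, hx⟩ := h (S.image (Function.surjInv hf)) ε hε
  refine ⟨x, fun s m => ?_⟩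
  have := hx _ (Finset.mem_image_of_mem _ m)
  rwa [MonoidHom.comp_apply, Function.surjInv_eq hf] at this

theorem RA.quot {G' : Type} [Group G'] {P : Set G} (h : RA G P) (f : G →* G')
    (hf : Function.Surjective f) : RA G' (f '' P) := fun H _ _ _ α e =>
  AF.of_comp f hf (h H (α.comp f) fun v hv => e v (Set.forall_mem_image.2 hv))

section Sub

variable [CompleteSpace H]

theorem orth_inv {π : G →* (H ≃ₗᵢ[ℂ] H)} {K : Submodule ℂ H} (hK : ∀ g, ∀ v ∈ K, π g v ∈ K) :
    ∀ g, ∀ v ∈ Kᗮ, π g v ∈ Kᗮ := fun g v hv w m => by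
  rw [← rep_apply_inv π g w, (π g).inner_map_map]
  exact hv _ (hK _ _ m)

theorem proj_comm {π : G →* (H ≃ₗᵢ[ℂ] H)} {K : Submodule ℂ H} [K.HasOrthogonalProjection]
    (hK : ∀ g, ∀ v ∈ K, π g v ∈ K) (g : G) (v : H) :
    K.starProjection (π g v) = π g (K.starProjection v) :=
  Submodule.eq_starProjection_of_mem_orthogonal (hK _ _ (K.starProjection_apply_mem v)) (by
    rw [← map_sub]
    exact orth_inv hK _ _ (K.sub_starProjection_mem_orthogonal v))

/-- The action projected to an invariant closed subspace. -/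
noncomputable def prj (α : G →* (H ≃ᵃⁱ[ℂ] H)) (K : Submodule ℂ H) [K.HasOrthogonalProjection]
    (hK : ∀ g, ∀ v ∈ K, lin α g v ∈ K) : G →* (K ≃ᵃⁱ[ℂ] K) :=
  aff (res (lin α) K hK) (fun g => ⟨K.starProjection (α g 0), K.starProjection_apply_mem _⟩)
    fun g h => Subtype.ext (by
      change _ = lin α g (K.starProjection (α h 0)) + K.starProjection (α g 0)
      rw [← proj_comm hK, ← map_add, ← act_eq, ← act_mul])

theorem prj_coe (α : G →* (H ≃ᵃⁱ[ℂ] H)) (K : Submodule ℂ H) [K.HasOrthogonalProjection]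
    (hK : ∀ g, ∀ v ∈ K, lin α g v ∈ K) (g : G) (x : K) :
    (prj α K hK g x : H) = K.starProjection (α g x) := by
  change lin α g x + K.starProjection (α g 0) = _
  rw [act_eq α g x, map_add, Submodule.starProjection_eq_self_iff.2 (hK g x x.2)]

theorem lin_prj (α : G →* (H ≃ᵃⁱ[ℂ] H)) (K : Submodule ℂ H) [K.HasOrthogonalProjection]
    (hK : ∀ g, ∀ v ∈ K, lin α g v ∈ K) (g : G) (x : K) :
    (lin (prj α K hK) g x : H) = lin α g x := rfl

/-- The displacement of a sum of orthogonal parts. -/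
theorem prj_split (α : G →* (H ≃ᵃⁱ[ℂ] H)) (K : Submodule ℂ H) [K.HasOrthogonalProjection]
    (hK : ∀ g, ∀ v ∈ K, lin α g v ∈ K) (g : G) (x : K) (y : Kᗮ) :
    α g (x + y) - (x + y) =
      (prj α K hK g x - x : K) + (prj α Kᗮ (orth_inv hK) g y - y : Kᗮ) := by
  change _ = (lin α g x + K.starProjection (α g 0) - x) +
    (lin α g y + Kᗮ.starProjection (α g 0) - y)
  rw [act_eq, map_add, Submodule.starProjection_orthogonal_val]
  abel

theorem AF.split (α : G →* (H ≃ᵃⁱ[ℂ] H)) (K : Submodule ℂ H) [K.HasOrthogonalProjection]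
    (hK : ∀ g, ∀ v ∈ K, lin α g v ∈ K) (h1 : AF (prj α K hK))
    (h2 : AF (prj α Kᗮ (orth_inv hK))) : AF α := fun S ε hε => by
  obtain ⟨x, hx⟩ := h1 S (ε / 2) (half_pos hε)
  obtain ⟨y, hy⟩ := h2 S (ε / 2) (half_pos hε)
  refine ⟨x + y, fun s m => ?_⟩
  rw [prj_split α K hK]
  exact (norm_add_le _ _).trans_lt (by
    have := hx s m
    have := hy s m
    simp only [Submodule.coe_norm] at *
    linarith)

omit [CompleteSpace H] in
theorem fix_inv (π : G →* (H ≃ₗᵢ[ℂ] H)) {P : Set G} (hP : ∀ g, ∀ p ∈ P, g⁻¹ * p * g ∈ P) :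
    ∀ g, ∀ v ∈ fix π P, π g v ∈ fix π P := fun g v hv p m => by
  conv_rhs => rw [← hv _ (hP g p m)]
  rw [rep_mul, rep_mul, rep_apply_inv]

/-- The part of an action without vectors fixed by `P` has almost fixed points. -/
theorem RA.orth {P : Set G} (h : RA G P) (hP : ∀ g, ∀ p ∈ P, g⁻¹ * p * g ∈ P)
    (α : G →* (H ≃ᵃⁱ[ℂ] H)) :
    AF (prj α (fix (lin α) P)ᗮ (orth_inv (fix_inv (lin α) hP))) :=
  h _ _ fun v hv => Subtype.ext (inner_self_eq_zero.1
    (v.2 v fun p m => congrArg Subtype.val (hv p m)))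

/-- A central element that acts by a translation acts trivially, if characters kill it. -/
theorem central_trivial (α : G →* (H ≃ᵃⁱ[ℂ] H)) {c : G} (hc : ∀ g, g * c = c * g)
    (hχ : ∀ χ : G →* Multiplicative ℂ, χ c = 1) (h : ∀ v, lin α c v = v) : α c = 1 := by
  have e : ∀ g, lin α g (α c 0) = α c 0 := fun g => by
    have := act_eq α c (α g 0)
    rw [← act_mul, ← hc, act_mul, act_eq, h, add_comm] at this
    exact add_left_cancel this
  have := hχ (MonoidHom.mk' (fun g => Multiplicative.ofAdd ⟪α c 0, α g 0⟫_ℂ) fun g k => by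
    rw [← ofAdd_add, act_mul, act_eq α g (α k 0), inner_add_right, add_comm]
    conv_lhs => rw [← e g, (lin α g).inner_map_map, e g])
  have z : α c 0 = 0 := inner_self_eq_zero.1 (ofAdd_eq_one.1 this)
  exact AffineIsometryEquiv.ext fun x => by rw [act_eq, h, z, add_zero]; rfl

/-- Central elements without common fixed vectors give almost fixed points. -/
theorem af_central (α : G →* (H ≃ᵃⁱ[ℂ] H)) {C : Set G} (hc : ∀ c ∈ C, ∀ g, g * c = c * g)
    (h : ∀ v, (∀ c ∈ C, lin α c v = v) → v = 0) : AF α := fun S ε hε => by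
  let ρ : G →* (PiLp 2 (fun _ : S => H) ≃ₗᵢ[ℂ] PiLp 2 fun _ : S => H) :=
    MonoidHom.mk' (fun g => LinearIsometryEquiv.piLpCongrRight 2 fun _ => lin α g) fun g g' =>
      LinearIsometryEquiv.ext fun f => PiLp.ext fun q => rep_mul _ _ _ _
  let D : H → PiLp 2 fun _ : S => H := fun y => WithLp.toLp 2 fun s => α s y - y
  have cv : Convex ℝ (Set.range D) := by
    rintro _ ⟨x, rfl⟩ _ ⟨y, rfl⟩ a b - - hab
    refine ⟨(a : ℂ) • x + (b : ℂ) • y, PiLp.ext fun s => ?_⟩
    change α s _ - _ = (a : ℂ) • (α s x - x) + (b : ℂ) • (α s y - y)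
    have : α s 0 = (a : ℂ) • α s 0 + (b : ℂ) • α s 0 := by
      rw [← add_smul, ← Complex.ofReal_add, hab, Complex.ofReal_one, one_smul]
    rw [act_eq, act_eq α s x, act_eq α s y, map_add, map_smul, map_smul]
    conv_lhs => rw [this]
    simp only [smul_add, smul_sub]
    abel
  have m := pr_mem_of_convex ρ C isClosed_closure cv.closure (fun c m =>
    fun w hw => map_mem_closure (ρ c).continuous hw (by
      rintro _ ⟨x, rfl⟩
      refine ⟨α c x, PiLp.ext fun s => ?_⟩
      change α s _ - _ = lin α c (α s x - x)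
      rw [lin_sub, ← act_mul, hc c m, act_mul])) (subset_closure ⟨0, rfl⟩)
  rw [show pr ρ C (D 0) = 0 from PiLp.ext fun s => h _ fun c m =>
    congrArg (fun f => f s) (pr_mem ρ C (D 0) c m)] at m
  obtain ⟨_, ⟨x, rfl⟩, hx⟩ := Metric.mem_closure_iff.1 m ε hε
  rw [dist_comm, dist_zero_right] at hx
  exact ⟨x, fun s m => (PiLp.norm_apply_le (D x) ⟨s, m⟩).trans_lt hx⟩

end Sub

/-- Central extensions. -/
theorem RA.central {G' : Type} [Group G'] (f : G →* G') (hf : Function.Surjective f)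
    (hc : ∀ c ∈ f.ker, ∀ g, g * c = c * g)
    (hχ : ∀ c ∈ f.ker, ∀ χ : G →* Multiplicative ℂ, χ c = 1) {P : Set G} (h : RA G' (f '' P)) :
    RA G P := fun H _ _ _ α e => by
  have i := fix_inv (lin α) (P := f.ker) fun g p m => by
    rwa [mul_assoc, ← hc p m, inv_mul_cancel_left]
  have : CompleteSpace (fix (lin α) f.ker) := (isClosed_fix _ _).completeSpace_coe
  refine AF.split α _ i ?_ (af_central _ hc fun v hv => Subtype.ext (inner_self_eq_zero.1
    (v.2 v fun p m => congrArg Subtype.val (hv p m))))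
  let β := f.liftOfSurjective hf ⟨prj α _ i, fun c m =>
    central_trivial _ (hc c m) (hχ c m) fun v => Subtype.ext (v.2 c m)⟩
  have eβ : β.comp f = prj α _ i := MonoidHom.liftOfRightInverse_comp ..
  rw [← eβ]
  refine (h _ β fun v hv => Subtype.ext (e v fun p m => ?_)).comp f
  have := congrArg Subtype.val (hv _ ⟨p, m, rfl⟩)
  rwa [show lin β (f p) = lin (β.comp f) p from rfl, eβ] at this

theorem afp_iff_ra (hχ : ∀ (χ : G →* Multiplicative ℂ) (g : G), χ g = 1) :
    AFP G ↔ RA G Set.univ := by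
  refine ⟨fun h => h.ra _, fun h H _ _ _ α => ?_⟩
  have i := fix_inv (lin α) (P := Set.univ) fun _ _ _ => trivial
  refine AF.split α _ i (fun S ε hε => ⟨0, fun s _ => ?_⟩) (h.orth (fun _ _ _ => trivial) α)
  have : CompleteSpace (fix (lin α) Set.univ) := (isClosed_fix _ _).completeSpace_coe
  let β := prj α _ i
  have e : ∀ g v, lin β g v = v := fun g v => Subtype.ext (v.2 g trivial)
  have := hχ (MonoidHom.mk' (fun g => Multiplicative.ofAdd ⟪β s 0, β g 0⟫_ℂ) fun g k => by
    rw [← ofAdd_add, act_mul, act_eq β g (β k 0), inner_add_right, add_comm, e]) s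
  rwa [show prj α _ i s 0 = 0 from inner_self_eq_zero.1 (ofAdd_eq_one.1 this), sub_zero,
    norm_zero]

theorem AFP.central {G' : Type} [Group G'] (f : G →* G') (hf : Function.Surjective f)
    (hc : ∀ c ∈ f.ker, ∀ g, g * c = c * g) (hχ : ∀ (χ : G →* Multiplicative ℂ) (g : G), χ g = 1)
    (h : AFP G') : AFP G :=
  (afp_iff_ra hχ).2 (RA.central f hf hc (fun c _ χ => hχ χ c) (h.ra _))

end Pool.Agent.MT
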