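import Pool.Agent.Lib.MP_c86c76_al.T.Soft

/-!
Affine isometric actions, their linear parts and cocycles.
-/

set_option autoImplicit false

namespace Pool.Agent.MT

open Pool.Agent.Lib.MP_c8f1ce_al.HN

/-- Every affine isometric action on a complex Hilbert space has a fixed point. -/
def FH (G : Type) [Group G] : Prop :=
  ∀ (H : Type) [NormedAddCommGroup H] [InnerProductSpace ℂ H] [CompleteSpace H]
    (α : G →* (H ≃ᵃⁱ[ℂ] H)), ∃ x, ∀ g, α g x = x

/-- Every affine isometric action on a complex Hilbert space has almost fixed points. -/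
def AFP (G : Type) [Group G] : Prop :=
  ∀ (H : Type) [NormedAddCommGroup H] [InnerProductSpace ℂ H] [CompleteSpace H]
    (α : G →* (H ≃ᵃⁱ[ℂ] H)) (S : Finset G) (ε : ℝ), 0 < ε → ∃ x, ∀ s ∈ S, ‖α s x - x‖ < ε

variable {G : Type} [Group G] {H : Type} [NormedAddCommGroup H] [InnerProductSpace ℂ H]

theorem act_mul (α : G →* (H ≃ᵃⁱ[ℂ] H)) (g h : G) (x : H) : α (g * h) x = α g (α h x) := by
  rw [map_mul]; rfl

theorem act_one (α : G →* (H ≃ᵃⁱ[ℂ] H)) (x : H) : α 1 x = x := by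
  rw [map_one]; rfl

theorem act_inv (α : G →* (H ≃ᵃⁱ[ℂ] H)) (g : G) (x : H) : α g⁻¹ (α g x) = x := by
  rw [← act_mul, inv_mul_cancel, act_one]

theorem act_inv' (α : G →* (H ≃ᵃⁱ[ℂ] H)) (g : G) (x : H) : α g (α g⁻¹ x) = x := by
  rw [← act_mul, mul_inv_cancel, act_one]

/-- The linear part. -/
noncomputable def lin (α : G →* (H ≃ᵃⁱ[ℂ] H)) : G →* (H ≃ₗᵢ[ℂ] H) :=
  MonoidHom.mk' (fun g => (α g).linearIsometryEquiv) fun g h => by rw [map_mul]; rfl

theorem lin_sub (α : G →* (H ≃ᵃⁱ[ℂ] H)) (g : G) (x y : H) :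
    lin α g (x - y) = α g x - α g y := (α g).map_vsub x y

theorem act_add (α : G →* (H ≃ᵃⁱ[ℂ] H)) (g : G) (v x : H) :
    α g (v + x) = lin α g v + α g x := (α g).map_vadd x v

theorem act_eq (α : G →* (H ≃ᵃⁱ[ℂ] H)) (g : G) (x : H) : α g x = lin α g x + α g 0 := by
  rw [← act_add, add_zero]

theorem act_norm (α : G →* (H ≃ᵃⁱ[ℂ] H)) (g : G) (x y : H) : ‖α g x - α g y‖ = ‖x - y‖ := by
  rw [← lin_sub, LinearIsometryEquiv.norm_map]

/-- The cocycle identity for the displacement of a point. -/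
theorem act_coc (α : G →* (H ≃ᵃⁱ[ℂ] H)) (x : H) (g h : G) :
    α (g * h) x - x = lin α g (α h x - x) + (α g x - x) := by
  rw [lin_sub, act_mul]; abel

theorem disp_mul (α : G →* (H ≃ᵃⁱ[ℂ] H)) (x : H) (g h : G) :
    ‖α (g * h) x - x‖ ≤ ‖α g x - x‖ + ‖α h x - x‖ := by
  rw [act_coc, add_comm ‖α g x - x‖]
  exact (norm_add_le _ _).trans_eq (by rw [LinearIsometryEquiv.norm_map])

theorem disp_inv (α : G →* (H ≃ᵃⁱ[ℂ] H)) (x : H) (g : G) : ‖α g⁻¹ x - x‖ = ‖α g x - x‖ := by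
  rw [← act_norm α g, act_inv', norm_sub_rev]

theorem disp_near (α : G →* (H ≃ᵃⁱ[ℂ] H)) (x y : H) (g : G) :
    ‖α g x - x‖ ≤ ‖α g y - y‖ + 2 * ‖x - y‖ := by
  have e : α g x - x = (α g y - y) + ((α g x - α g y) - (x - y)) := by abel
  have := norm_sub_le (α g x - α g y) (x - y)
  rw [act_norm] at this
  rw [e]
  linarith [norm_add_le (α g y - y) ((α g x - α g y) - (x - y))]

/-- The action defined by a representation and a cocycle. -/
noncomputable def aff (π : G →* (H ≃ₗᵢ[ℂ] H)) (b : G → H) (hb : ∀ g h, b (g * h) = π g (b h) + b g) :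
    G →* (H ≃ᵃⁱ[ℂ] H) :=
  MonoidHom.mk' (fun g => AffineIsometryEquiv.mk' (fun x => π g x + b g) (π g) 0 (by simp))
    fun g h => AffineIsometryEquiv.ext fun x => by
      change π (g * h) x + b (g * h) = π g (π h x + b h) + b g
      rw [hb, rep_mul, map_add, add_assoc]

theorem aff_apply (π : G →* (H ≃ₗᵢ[ℂ] H)) (b : G → H) (hb : ∀ g h, b (g * h) = π g (b h) + b g)
    (g : G) (x : H) : aff π b hb g x = π g x + b g := rfl

theorem lin_aff (π : G →* (H ≃ₗᵢ[ℂ] H)) (b : G → H) (hb : ∀ g h, b (g * h) = π g (b h) + b g) :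
    lin (aff π b hb) = π := rfl

/-- Word length bound for displacements. -/
theorem disp_word {S : Set G} {g : G} (hg : g ∈ Subgroup.closure S) :
    ∃ n : ℕ, ∀ (H : Type) [NormedAddCommGroup H] [InnerProductSpace ℂ H]
      (α : G →* (H ≃ᵃⁱ[ℂ] H)) (x : H) (δ : ℝ), 0 ≤ δ → (∀ s ∈ S, ‖α s x - x‖ ≤ δ) →
      ‖α g x - x‖ ≤ n * δ := by
  induction hg using Subgroup.closure_induction with
  | mem x hx => exact ⟨1, fun H _ _ π v δ _ h => by simpa using h x hx⟩
  | one => exact ⟨0, fun H _ _ π v δ _ _ => by simp [act_one]⟩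
  | mul x y _ _ hx hy =>
    obtain ⟨n, hn⟩ := hx
    obtain ⟨m, hm⟩ := hy
    refine ⟨n + m, fun H _ _ π v δ h d => (disp_mul π v x y).trans ?_⟩
    rw [Nat.cast_add, add_mul]
    exact add_le_add (hn H π v δ h d) (hm H π v δ h d)
  | inv x _ hx =>
    exact hx.imp fun n hn H _ _ π v δ h d => (disp_inv π v x).trans_le (hn H π v δ h d)

theorem fix_closure (α : G →* (H ≃ᵃⁱ[ℂ] H)) {S : Set G} {x : H} (h : ∀ s ∈ S, α s x = x) {g : G}
    (hg : g ∈ Subgroup.closure S) : α g x = x := by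
  obtain ⟨n, hn⟩ := disp_word hg
  have := hn H α x 0 le_rfl fun s m => by rw [h s m, sub_self, norm_zero]
  rwa [mul_zero, norm_le_zero_iff, sub_eq_zero] at this

/-- Almost fixed points for a generating set suffice. -/
theorem afp_of_gen (α : G →* (H ≃ᵃⁱ[ℂ] H)) {S0 : Set G}
    (h : ∀ ε > 0, ∃ x, ∀ s ∈ S0, ‖α s x - x‖ ≤ ε) (S : Finset G)
    (hS : ∀ s ∈ S, s ∈ Subgroup.closure S0) (ε : ℝ) (hε : 0 < ε) :
    ∃ x, ∀ s ∈ S, ‖α s x - x‖ < ε := by
  choose! n hn using fun g (hg : g ∈ Subgroup.closure S0) => disp_word hg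
  have p : (0 : ℝ) < (S.sup n : ℕ) + 1 := by positivity
  obtain ⟨x, hx⟩ := h (ε / ((S.sup n : ℕ) + 1)) (by positivity)
  refine ⟨x, fun s m => (hn s (hS s m) H α x _ (by positivity) hx).trans_lt ?_⟩
  have : (n s : ℝ) ≤ (S.sup n : ℕ) := Nat.cast_le.2 (Finset.le_sup m)
  rw [← mul_div_assoc, div_lt_iff₀ p]
  nlinarith

theorem FH.afp (h : FH G) : AFP G := fun H _ _ _ α _ ε hε =>
  (h H α).imp fun x hx s _ => by rwa [hx, sub_self, norm_zero]

theorem FH.quot {G' : Type} [Group G'] (h : FH G) (f : G →* G') (hf : Function.Surjective f) :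
    FH G' := fun H _ _ _ α => (h H (α.comp f)).imp fun _ hx => hf.forall.2 hx

theorem AFP.quot {G' : Type} [Group G'] (h : AFP G) (f : G →* G') (hf : Function.Surjective f) :
    AFP G' := fun H _ _ _ α S ε hε => by
  classical
  obtain ⟨x, hx⟩ := h H (α.comp f) (S.image (Function.surjInv hf)) ε hε
  refine ⟨x, fun s m => ?_⟩
  have := hx _ (Finset.mem_image_of_mem _ m)
  rwa [MonoidHom.comp_apply, Function.surjInv_eq hf] at this

end Pool.Agent.MT
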