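import Pool.Agent.Lib.MP_c86c76_al.S.Idx
import Pool.Agent.Lib.MP_c86c76_al.G.Defs

/-!
The base statement for the surface of genus four with two marked points.
-/

set_option autoImplicit false

namespace Pool.Agent.MT

open Pool.Agent.MB Pool.Agent.MG

/-- The automorphisms that keep the class of `r` up to inversion. -/
def Cj {F : Type} [Group F] (r : F) : Subgroup (MulAut F) where
  carrier := {φ | IsConj r (φ r) ∨ IsConj r⁻¹ (φ r)}
  one_mem' := Or.inl (IsConj.refl _)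
  mul_mem' := by
    have i : ∀ {x y : F}, IsConj x y → IsConj x⁻¹ y⁻¹ := fun h => by
      obtain ⟨c, rfl⟩ := isConj_iff.1 h
      exact isConj_iff.2 ⟨c, by group⟩
    rintro a b h (h' | h') <;> have e := a.toMonoidHom.map_isConj h'
    · exact h.imp (·.trans e) (·.trans e)
    · rw [map_inv] at e
      exact h.symm.imp (fun k => by simpa using (i k).trans e) fun k => (i k).trans e
  inv_mem' := by
    have i : ∀ {x y : F}, IsConj x y → IsConj x⁻¹ y⁻¹ := fun h => by
      obtain ⟨c, rfl⟩ := isConj_iff.1 h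
      exact isConj_iff.2 ⟨c, by group⟩
    rintro a (h | h) <;> have e := (a⁻¹ : MulAut F).toMonoidHom.map_isConj h
    · exact Or.inl (by simpa using e.symm)
    · exact Or.inr (by simpa using (i e).symm)

/-- The inner automorphisms. -/
def Inn {F : Type} [Group F] (r : F) : Set (Cj r) := {φ | ∃ w, φ.1 = MulAut.conj w}

/-- The base statement. -/
def BaseA : Prop := RA (Cj (ev 8 (rW 4))) (Inn (ev 8 (rW 4)))

theorem conj_mem_cj {F : Type} [Group F] (r w : F) : MulAut.conj w ∈ Cj r :=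
  Or.inl (isConj_iff.2 ⟨w, rfl⟩)

theorem cj_conj {F : Type} [Group F] {r r' : F} (ω : MulAut F)
    (h : IsConj r' (ω r) ∨ IsConj r'⁻¹ (ω r)) {φ : MulAut F} (hφ : φ ∈ Cj r') :
    ω⁻¹ * φ * ω ∈ Cj r := by
  have i : ∀ {x y : F}, IsConj x y → IsConj x⁻¹ y⁻¹ := fun h => by
    obtain ⟨c, rfl⟩ := isConj_iff.1 h
    exact isConj_iff.2 ⟨c, by group⟩
  have key : IsConj (ω r) (φ (ω r)) ∨ IsConj (ω r)⁻¹ (φ (ω r)) := by
    rcases h with h | h <;> have e := φ.toMonoidHom.map_isConj h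
    · exact hφ.imp (fun k => h.symm.trans (k.trans e)) fun k => (i h).symm.trans (k.trans e)
    · rw [map_inv] at e
      exact hφ.imp (fun k => h.symm.trans ((i k).trans e)) fun k =>
        (i h).symm.trans ((i k).trans e)
  refine key.imp (fun k => ?_) fun k => ?_ <;>
    simpa using (ω⁻¹ : MulAut F).toMonoidHom.map_isConj k

/-- Change of the basis. -/
theorem cj_tr {F : Type} [Group F] {r r' : F} (ω : MulAut F)
    (h : IsConj r' (ω r) ∨ IsConj r'⁻¹ (ω r)) (hR : RA (Cj r') (Inn r')) : RA (Cj r) (Inn r) := by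
  have h' : IsConj r (ω⁻¹ r') ∨ IsConj r⁻¹ (ω⁻¹ r') := by
    refine h.imp (fun k => ?_) fun k => ?_
    · simpa using ((ω⁻¹ : MulAut F).toMonoidHom.map_isConj k).symm
    · obtain ⟨c, e⟩ := isConj_iff.1 ((ω⁻¹ : MulAut F).toMonoidHom.map_isConj k).symm
      refine isConj_iff.2 ⟨c, ?_⟩
      have : (c * r * c⁻¹)⁻¹ = ω⁻¹ r' := by simpa using congrArg (·⁻¹) e
      rw [← this]
      group
  let f : Cj r' →* Cj r := MonoidHom.mk' (fun φ => ⟨ω⁻¹ * φ.1 * ω, cj_conj ω h φ.2⟩)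
    fun a b => Subtype.ext (by simp [mul_assoc])
  refine (hR.quot f fun φ => ⟨⟨ω * φ.1 * ω⁻¹, by simpa using cj_conj ω⁻¹ h' φ.2⟩,
    Subtype.ext (by simp [f, mul_assoc])⟩).mono ?_
  rintro φ ⟨w, e⟩
  refine ⟨⟨_, conj_mem_cj r' (ω w)⟩, ⟨_, rfl⟩, Subtype.ext ?_⟩
  rw [e]
  ext x
  simp [f]

/-- A fixed point of the inner automorphisms gives the relative property. -/
theorem ra_of_fix {G : Type} [Group G] {P : Set G} (hP : ∀ g, ∀ p ∈ P, g⁻¹ * p * g ∈ P)
    (h : ∀ (H : Type) [NormedAddCommGroup H] [InnerProductSpace ℂ H] [CompleteSpace H]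
      (α : G →* (H ≃ᵃⁱ[ℂ] H)), ∃ x, ∀ p ∈ P, α p x = x) : RA G P := by
  intro H _ _ _ α e S ε hε
  obtain ⟨x, hx⟩ := h H α
  refine ⟨x, fun s _ => ?_⟩
  have : α s x - x = 0 := e _ fun p m => by
    have h1 : α p (α s x) = α s x := by
      conv_rhs => rw [← hx _ (hP s p m)]
      rw [← act_mul, ← act_mul]
      congr 2
      group
    rw [lin_sub, h1, hx p m]
  simpa [this] using hε

end Pool.Agent.MT
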