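import Pool.Agent.Lib.MP_c86c76_al.S.Rel

/-!
Almost fixed points and subgroups of finite index.
-/

set_option autoImplicit false

namespace Pool.Agent.MT

open Pool.Agent.Lib.MP_c8f1ce_al.HN

variable {G : Type} [Group G] {H : Type} [NormedAddCommGroup H] [InnerProductSpace ℂ H]

/-- The mean of finitely many points. -/
noncomputable def mean {ι : Type} [Fintype ι] (x : ι → H) : H :=
  (Fintype.card ι : ℂ)⁻¹ • ∑ i, x i

theorem act_mean {ι : Type} [Fintype ι] [Nonempty ι] (α : G →* (H ≃ᵃⁱ[ℂ] H)) (g : G)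
    (x : ι → H) : α g (mean x) = mean fun i => α g (x i) := by
  have : (Fintype.card ι : ℂ) ≠ 0 := Nat.cast_ne_zero.2 Fintype.card_ne_zero
  rw [act_eq, mean, mean, map_smul, map_sum, Finset.sum_congr rfl fun i _ => act_eq α g (x i),
    Finset.sum_add_distrib, smul_add, Finset.sum_const, ← Nat.cast_smul_eq_nsmul ℂ,
    Finset.card_univ, inv_smul_smul₀ this]

theorem mean_equiv {ι : Type} [Fintype ι] (e : ι ≃ ι) (x : ι → H) :
    mean (fun i => x (e i)) = mean x := by rw [mean, mean, Equiv.sum_comp e x]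

theorem mean_dist {ι : Type} [Fintype ι] [Nonempty ι] {x y : ι → H} {c : ℝ}
    (h : ∀ i, ‖x i - y i‖ ≤ c) : ‖mean x - mean y‖ ≤ c := by
  have : (0 : ℝ) < Fintype.card ι := Nat.cast_pos.2 Fintype.card_pos
  rw [mean, mean, ← smul_sub, ← Finset.sum_sub_distrib, norm_smul, norm_inv, Complex.norm_natCast,
    inv_mul_le_iff₀ this]
  refine (norm_sum_le _ _).trans ((Finset.sum_le_sum fun i _ => h i).trans_eq ?_)
  rw [Finset.sum_const, Finset.card_univ, nsmul_eq_mul]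

theorem out_coc (N : Subgroup G) (g : G) (q : G ⧸ N) :
    g * q.out = (g • q).out * coc N g (g • q) := by simp [coc]

theorem mean_coset (α : G →* (H ≃ᵃⁱ[ℂ] H)) (N : Subgroup G) [Fintype (G ⧸ N)] (x : H) (g : G)
    {c : ℝ} (h : ∀ q, ‖α (coc N g q) x - x‖ ≤ c) :
    ‖α g (mean fun q : G ⧸ N => α q.out x) - mean fun q : G ⧸ N => α q.out x‖ ≤ c := by
  rw [act_mean]
  conv_lhs => rw [← mean_equiv (MulAction.toPerm g) fun q : G ⧸ N => α q.out x]
  refine mean_dist fun q => ?_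
  rw [← act_mul, out_coc, act_mul]
  exact (act_norm _ _ _ _).trans_le (h _)

theorem fix_of_sub (α : G →* (H ≃ᵃⁱ[ℂ] H)) (N : Subgroup G) [N.FiniteIndex]
    (h : ∃ x, ∀ g ∈ N, α g x = x) : ∃ x, ∀ g, α g x = x := by
  have := Subgroup.fintypeQuotientOfFiniteIndex (H := N)
  obtain ⟨x, hx⟩ := h
  exact ⟨_, fun g => sub_eq_zero.1 (norm_le_zero_iff.1 (mean_coset α N x g fun q => by
    rw [hx _ (coc N g q).2, sub_self, norm_zero]))⟩

theorem AF.of_sub (α : G →* (H ≃ᵃⁱ[ℂ] H)) (N : Subgroup G) [N.FiniteIndex]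
    (h : AF (α.comp N.subtype)) : AF α := fun S ε hε => by
  classical
  have := Subgroup.fintypeQuotientOfFiniteIndex (H := N)
  obtain ⟨x, hx⟩ := h ((S ×ˢ Finset.univ).image fun p => coc N p.1 p.2) (ε / 2) (half_pos hε)
  exact ⟨_, fun s m => (mean_coset α N x s fun q => (hx _ (Finset.mem_image_of_mem
    (fun p => coc N p.1 p.2) (Finset.mk_mem_product m (Finset.mem_univ q)))).le).trans_lt
      (half_lt_self hε)⟩

theorem FH.finite [Finite G] : FH G := fun _ _ _ _ α =>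
  fix_of_sub α ⊥ ⟨0, fun g m => by rw [Subgroup.mem_bot.1 m, act_one]⟩

theorem FH.of_sub (N : Subgroup G) [N.FiniteIndex] (h : FH N) : FH G := fun H _ _ _ α =>
  fix_of_sub α N ((h H (α.comp N.subtype)).imp fun _ hx g m => hx ⟨g, m⟩)

theorem AFP.of_sub (N : Subgroup G) [N.FiniteIndex] (h : AFP N) : AFP G := fun H _ _ _ α =>
  AF.of_sub α N (h H _)

theorem coc_mul (N : Subgroup G) (g g' : G) (q : G ⧸ N) :
    coc N (g * g') q = coc N g q * coc N g' (g⁻¹ • q) :=
  Subtype.ext (by simp [coc, mul_assoc, mul_smul])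

/-- The induced action. -/
noncomputable def indA (N : Subgroup G) [Fintype (G ⧸ N)] (α : N →* (H ≃ᵃⁱ[ℂ] H)) :
    G →* (PiLp 2 (fun _ : G ⧸ N => H) ≃ᵃⁱ[ℂ] PiLp 2 fun _ : G ⧸ N => H) :=
  aff (MonoidHom.mk' (fun g =>
      (LinearIsometryEquiv.piLpCongrLeft 2 ℂ H (MulAction.toPerm g)).trans
      (LinearIsometryEquiv.piLpCongrRight 2 fun q => lin α (coc N g q))) fun g g' =>
        LinearIsometryEquiv.ext fun f => PiLp.ext fun q => by
          change lin α (coc N (g * g') q) (f ((g * g')⁻¹ • q)) =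
            lin α (coc N g q) (lin α (coc N g' (g⁻¹ • q)) (f (g'⁻¹ • g⁻¹ • q)))
          rw [← rep_mul, mul_inv_rev, mul_smul, coc_mul])
    (fun g => WithLp.toLp 2 fun q => α (coc N g q) 0) fun g g' => PiLp.ext fun q => by
      change α _ 0 = lin α (coc N g q) (α (coc N g' (g⁻¹ • q)) 0) + α (coc N g q) 0
      rw [coc_mul, act_mul, act_eq]

theorem indA_apply (N : Subgroup G) [Fintype (G ⧸ N)] (α : N →* (H ≃ᵃⁱ[ℂ] H)) (g : G)
    (f : PiLp 2 fun _ : G ⧸ N => H) (q : G ⧸ N) :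
    indA N α g f q = α (coc N g q) (f (g⁻¹ • q)) := (act_eq _ _ _).symm

theorem lin_indA (N : Subgroup G) [Fintype (G ⧸ N)] (α : N →* (H ≃ᵃⁱ[ℂ] H)) (g : G)
    (f : PiLp 2 fun _ : G ⧸ N => H) (q : G ⧸ N) :
    lin (indA N α) g f q = lin α (coc N g q) (f (g⁻¹ • q)) := rfl

theorem conj_out (N : Subgroup G) (q : G ⧸ N) (g : N) :
    (q.out * g * q.out⁻¹)⁻¹ • q = q ∧ coc N (q.out * g * q.out⁻¹) q = g := by
  have i : (q.out * g * q.out⁻¹)⁻¹ • q = q := by
    rw [inv_smul_eq_iff, ← MulAction.Quotient.mk_smul_out, eq_comm]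
    conv_rhs => rw [← q.out_eq']
    rw [QuotientGroup.eq]
    simp
  exact ⟨i, Subtype.ext (by simp only [coc, i]; group)⟩

theorem AF.of_indA (N : Subgroup G) [Fintype (G ⧸ N)] (α : N →* (H ≃ᵃⁱ[ℂ] H))
    (h : AF (indA N α)) : AF α := fun S ε hε => by
  classical
  let q : G ⧸ N := (1 : G)
  obtain ⟨f, hf⟩ := h (S.image fun s : N => q.out * s * q.out⁻¹) ε hε
  refine ⟨f q, fun s m => lt_of_le_of_lt ?_ (hf _ (Finset.mem_image_of_mem _ m))⟩
  refine le_trans (le_of_eq ?_) (PiLp.norm_apply_le _ q)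
  rw [PiLp.sub_apply, indA_apply, (conj_out N q s).1, (conj_out N q s).2]

theorem RA.sub {P : Set G} (h : RA G P) (hP : ∀ g, ∀ p ∈ P, g * p * g⁻¹ ∈ P) (N : Subgroup G)
    [N.FiniteIndex] : RA N {x | x.1 ∈ P} := fun H _ _ _ α e => by
  have := Subgroup.fintypeQuotientOfFiniteIndex (H := N)
  refine AF.of_indA N α (h _ _ fun f hf => PiLp.ext fun q => e _ fun p m => ?_)
  have := congrArg (fun f => f q) (hf _ (hP q.out p m))
  rwa [lin_indA, (conj_out N q p).1, (conj_out N q p).2] at this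

theorem AFP.sub (h : AFP G) (N : Subgroup G) [N.FiniteIndex] : AFP N := fun H _ _ _ α => by
  have := Subgroup.fintypeQuotientOfFiniteIndex (H := N)
  exact AF.of_indA N α (h _ _)

/-- A homomorphism with central kernel and image of finite index. -/
theorem RA.pull {G' : Type} [Group G'] (f : G →* G') [f.range.FiniteIndex]
    (hc : ∀ c ∈ f.ker, ∀ g, g * c = c * g)
    (hχ : ∀ c ∈ f.ker, ∀ χ : G →* Multiplicative ℂ, χ c = 1) {P : Set G'} (h : RA G' P)
    (hP : ∀ g, ∀ p ∈ P, g * p * g⁻¹ ∈ P) : RA G (f ⁻¹' P) :=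
  RA.central f.rangeRestrict f.rangeRestrict_surjective
    (by rwa [MonoidHom.ker_rangeRestrict]) (by rwa [MonoidHom.ker_rangeRestrict])
    ((h.sub hP f.range).mono (by rintro _ ⟨g, m, rfl⟩; exact m))

theorem AFP.pull {G' : Type} [Group G'] (f : G →* G') [f.range.FiniteIndex]
    (hc : ∀ c ∈ f.ker, ∀ g, g * c = c * g) (hχ : ∀ (χ : G →* Multiplicative ℂ) (g : G), χ g = 1)
    (h : AFP G') : AFP G :=
  AFP.central f.rangeRestrict f.rangeRestrict_surjective
    (by rwa [MonoidHom.ker_rangeRestrict]) hχ (h.sub _)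

end Pool.Agent.MT
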