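import Pool.Agent.Lib.MP_c86c76_al.S.Aff

/-!
Ultralimits of affine isometric actions: almost fixed points for all actions give fixed points for
all actions and property (T).
-/

set_option autoImplicit false

namespace Pool.Agent.MT

open Pool.Agent.Lib.MP_c8f1ce_al.HN Filter Topology
open scoped InnerProductSpace

section Ultra

variable (H : ℕ → Type) [∀ n, NormedAddCommGroup (H n)] [∀ n, InnerProductSpace ℂ (H n)]

/-- Bounded sequences. -/
def ubd : Submodule ℂ (∀ n, H n) where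
  carrier := {x | ∃ C : ℝ, ∀ n, ‖x n‖ ≤ C}
  zero_mem' := ⟨0, fun n => by simp⟩
  add_mem' := fun ⟨C, hC⟩ ⟨D, hD⟩ =>
    ⟨C + D, fun n => (norm_add_le _ _).trans (add_le_add (hC n) (hD n))⟩
  smul_mem' := fun c _ ⟨C, hC⟩ => ⟨‖c‖ * C, fun n => by
    rw [Pi.smul_apply, norm_smul]
    exact mul_le_mul_of_nonneg_left (hC n) (norm_nonneg _)⟩

/-- Bounded sequences, with the limit seminorm. -/
def UP : Type := ubd H

noncomputable instance : AddCommGroup (UP H) := inferInstanceAs (AddCommGroup (ubd H))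

noncomputable instance : Module ℂ (UP H) := inferInstanceAs (Module ℂ (ubd H))

variable {H}

/-- The terms of a bounded sequence. -/
def UP.at (x : UP H) (n : ℕ) : H n := (show ubd H from x).1 n

theorem UP.bd (x : UP H) : ∃ C : ℝ, ∀ n, ‖x.at n‖ ≤ C := (show ubd H from x).2

theorem UP.ext' {x y : UP H} (h : ∀ n, x.at n = y.at n) : x = y := Subtype.ext (funext h)

theorem UP.lim (x y : UP H) :
    ∃ c : ℂ, Tendsto (fun n => ⟪x.at n, y.at n⟫_ℂ) (hyperfilter ℕ) (𝓝 c) := by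
  obtain ⟨C, hC⟩ := x.bd
  obtain ⟨D, hD⟩ := y.bd
  obtain ⟨c, -, hc⟩ := (isCompact_closedBall (0 : ℂ) (C * D)).ultrafilter_le_nhds
    ((hyperfilter ℕ).map fun n => ⟪x.at n, y.at n⟫_ℂ) (by
      rw [le_principal_iff, Ultrafilter.mem_coe, Ultrafilter.mem_map]
      refine univ_mem' fun n => ?_
      rw [Set.mem_preimage, mem_closedBall_zero_iff]
      exact (norm_inner_le_norm _ _).trans
        (mul_le_mul (hC n) (hD n) (norm_nonneg _) ((norm_nonneg _).trans (hC n))))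
  exact ⟨c, hc⟩

/-- The limit inner product. -/
noncomputable def UP.ip (x y : UP H) : ℂ := (x.lim y).choose

theorem UP.ip_lim (x y : UP H) :
    Tendsto (fun n => ⟪x.at n, y.at n⟫_ℂ) (hyperfilter ℕ) (𝓝 (x.ip y)) := (x.lim y).choose_spec

noncomputable instance UP.core : PreInnerProductSpace.Core ℂ (UP H) where
  inner := UP.ip
  conj_inner_symm x y := tendsto_nhds_unique
    ((Complex.continuous_conj.tendsto _).comp (y.ip_lim x))
    ((x.ip_lim y).congr fun n => (inner_conj_symm _ _).symm)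
  re_inner_nonneg x := ge_of_tendsto' ((Complex.continuous_re.tendsto _).comp (x.ip_lim x))
    fun n => inner_self_nonneg (𝕜 := ℂ)
  add_left x y z := tendsto_nhds_unique ((x + y).ip_lim z)
    (((x.ip_lim z).add (y.ip_lim z)).congr fun n => (inner_add_left _ _ _).symm)
  smul_left x y c := tendsto_nhds_unique ((c • x).ip_lim y)
    (((x.ip_lim y).const_mul _).congr fun n => (inner_smul_left _ _ _).symm)

noncomputable instance : SeminormedAddCommGroup (UP H) :=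
  InnerProductSpace.Core.toSeminormedAddCommGroup (𝕜 := ℂ)

noncomputable instance : InnerProductSpace ℂ (UP H) := InnerProductSpace.ofCore UP.core

theorem UP.norm_lim (x : UP H) : Tendsto (fun n => ‖x.at n‖) (hyperfilter ℕ) (𝓝 ‖x‖) :=
  (((Real.continuous_sqrt.comp Complex.continuous_re).tendsto _).comp (x.ip_lim x)).congr
    fun n => (norm_eq_sqrt_re_inner (𝕜 := ℂ) _).symm

variable {G : Type} [Group G]

/-- The termwise action. -/
noncomputable def UP.rep (π : ∀ n, G →* (H n ≃ₗᵢ[ℂ] H n)) (g : G) : UP H ≃ₗ[ℂ] UP H where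
  toFun x := ⟨fun n => π n g (x.at n), x.bd.imp fun _ h n => ((π n g).norm_map _).trans_le (h n)⟩
  invFun x :=
    ⟨fun n => π n g⁻¹ (x.at n), x.bd.imp fun _ h n => ((π n _).norm_map _).trans_le (h n)⟩
  map_add' x y := UP.ext' fun n => map_add (π n g) _ _
  map_smul' c x := UP.ext' fun n => map_smul (π n g) c _
  left_inv x := UP.ext' fun n => rep_inv_apply _ _ _
  right_inv x := UP.ext' fun n => rep_apply_inv _ _ _

theorem UP.rep_norm (π : ∀ n, G →* (H n ≃ₗᵢ[ℂ] H n)) (g : G) (x : UP H) :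
    ‖UP.rep π g x‖ = ‖x‖ :=
  tendsto_nhds_unique (UP.norm_lim _) (x.norm_lim.congr fun n => ((π n g).norm_map _).symm)

open UniformSpace in
/-- The limit representation. -/
noncomputable def UP.crep (π : ∀ n, G →* (H n ≃ₗᵢ[ℂ] H n)) (g : G) :
    Completion (UP H) ≃ₗᵢ[ℂ] Completion (UP H) :=
  (UP.rep π g).extendOfIsometry (Completion.toComplₗᵢ (𝕜 := ℂ)).toLinearMap
    (Completion.toComplₗᵢ (𝕜 := ℂ)).toLinearMap Completion.denseRange_coe
    Completion.denseRange_coe fun x => by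
      change ‖((UP.rep π g x : UP H) : Completion (UP H))‖ = ‖(x : Completion (UP H))‖
      rw [Completion.norm_coe, Completion.norm_coe, UP.rep_norm]

open UniformSpace in
theorem UP.crep_coe (π : ∀ n, G →* (H n ≃ₗᵢ[ℂ] H n)) (g : G) (x : UP H) :
    UP.crep π g (x : Completion (UP H)) = (UP.rep π g x : UP H) :=
  LinearEquiv.extendOfIsometry_eq _ _ _ _ _ _ x

open UniformSpace in
theorem ultra_not_afp (S : Finset G) (hS : Subgroup.closure (S : Set G) = ⊤)
    (α : ∀ n, G →* (H n ≃ᵃⁱ[ℂ] H n)) (h1 : ∀ n, ∀ s ∈ S, ‖α n s 0 - 0‖ ≤ 1)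
    (h2 : ∀ (n : ℕ) (w : H n), ‖w‖ ≤ n → ∃ s ∈ S, 1 / 2 ≤ ‖α n s w - w‖) : ¬AFP G := by
  intro hA
  let b : G → UP H := fun g => ⟨fun n => α n g 0, by
    obtain ⟨k, hk⟩ := disp_word (hS ▸ Subgroup.mem_top g : g ∈ Subgroup.closure (S : Set G))
    exact ⟨k * 1, fun n => by simpa using hk (H n) (α n) 0 1 zero_le_one (h1 n)⟩⟩
  let π : G →* (Completion (UP H) ≃ₗᵢ[ℂ] Completion (UP H)) :=
    MonoidHom.mk' (UP.crep fun n => lin (α n)) fun g h => LinearIsometryEquiv.ext fun x => by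
      induction x using Completion.induction_on with
      | hp => exact isClosed_eq (LinearIsometryEquiv.continuous _) (LinearIsometryEquiv.continuous _)
      | ih x =>
        change _ = UP.crep _ g (UP.crep _ h _)
        rw [UP.crep_coe, UP.crep_coe, UP.crep_coe]
        exact congrArg _ (UP.ext' fun n => rep_mul _ _ _ _)
  have hπ : ∀ g (x : UP H), π g x = (UP.rep (fun n => lin (α n)) g x : UP H) :=
    fun g x => UP.crep_coe _ g x
  let β := aff π (fun g => (b g : Completion (UP H))) fun g h => by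
    rw [hπ, ← Completion.coe_add]
    exact congrArg _ (UP.ext' fun n => (act_mul _ _ _ _).trans (act_eq _ _ _))
  obtain ⟨x, hx⟩ := hA _ β S (1 / 8) (by norm_num)
  obtain ⟨y, hy⟩ := (Completion.denseRange_coe (α := UP H)).exists_dist_lt x
    (show (0 : ℝ) < 1 / 8 by norm_num)
  have key : ∀ s ∈ S, ∀ᶠ n in hyperfilter ℕ, ‖α n s (y.at n) - y.at n‖ < 1 / 2 := fun s m => by
    have i1 := disp_near β y x s
    rw [norm_sub_rev (y : Completion (UP H)), ← dist_eq_norm x, aff_apply, hπ,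
      ← Completion.coe_add, ← Completion.coe_sub, Completion.norm_coe] at i1
    refine ((UP.norm_lim _).eventually_lt_const
      (show _ < (1 / 2 : ℝ) from i1.trans_lt (by linarith [hx s m]))).mono fun n hn => ?_
    rwa [act_eq]
  obtain ⟨C, hC⟩ := y.bd
  have big : ∀ᶠ n : ℕ in hyperfilter ℕ, C ≤ n := (hyperfilter_le_cofinite.trans
    Nat.cofinite_eq_atTop.le) (tendsto_natCast_atTop_atTop.eventually_ge_atTop C)
  obtain ⟨n, a1, a2⟩ := (((eventually_all_finset S).2 key).and big).exists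
  obtain ⟨s, m, hs⟩ := h2 n (y.at n) ((hC n).trans a2)
  exact (a1 s m).not_ge hs

end Ultra

variable {G : Type} [Group G]

section One

variable {H : Type} [NormedAddCommGroup H] [InnerProductSpace ℂ H]

/-- Either a fixed point is near, or the displacement is almost minimal on a large ball. -/
theorem fix_or [CompleteSpace H] (α : G →* (H ≃ᵃⁱ[ℂ] H)) (S : Finset G) (R : ℝ) (v : H) {δ : ℝ}
    (hδ : 0 < δ) (hv : ∀ s ∈ S, ‖α s v - v‖ ≤ δ) :
    (∃ x, (∀ s ∈ S, α s x = x) ∧ ‖x - v‖ ≤ 2 * R * δ) ∨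
      ∃ u r, 0 < r ∧ (∀ s ∈ S, ‖α s u - u‖ ≤ r) ∧
        ∀ w, ‖w - u‖ ≤ R * r → ∃ s ∈ S, r / 2 ≤ ‖α s w - w‖ := by
  refine or_iff_not_imp_right.2 fun hn => ?_
  have step : ∀ u r, 0 < r → (∀ s ∈ S, ‖α s u - u‖ ≤ r) →
      ∃ w, ‖w - u‖ ≤ R * r ∧ ∀ s ∈ S, ‖α s w - w‖ ≤ r / 2 := fun u r h0 h => by
    by_contra hc
    refine hn ⟨u, r, h0, h, fun w hw => ?_⟩
    by_contra hd
    exact hc ⟨w, hw, fun s m => (not_le.1 fun e => hd ⟨s, m, e⟩).le⟩
  choose! f f1 f2 using step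
  let u : ℕ → H := fun k => Nat.rec v (fun k x => f x (δ / 2 ^ k)) k
  have p : ∀ k : ℕ, 0 < δ / 2 ^ k := fun k => by positivity
  have hu : ∀ k, ∀ s ∈ S, ‖α s (u k) - u k‖ ≤ δ / 2 ^ k := fun k => by
    induction k with
    | zero => exact fun s m => (hv s m).trans_eq (by simp)
    | succ k ih => exact fun s m => (f2 _ _ (p k) ih s m).trans_eq (by ring)
  have hd : ∀ k, dist (u k) (u (k + 1)) ≤ 2 * R * δ / 2 / 2 ^ k := fun k => by
    rw [dist_comm, dist_eq_norm]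
    exact (f1 _ _ (p k) (hu k)).trans_eq (by ring)
  obtain ⟨x, hx⟩ := cauchySeq_tendsto_of_complete (cauchySeq_of_le_geometric_two hd)
  refine ⟨x, fun s m => ?_, ?_⟩
  · have t1 : Tendsto (fun k => ‖α s (u k) - u k‖) atTop (𝓝 ‖α s x - x‖) :=
      ((((α s).continuous.tendsto x).comp hx).sub hx).norm
    have t2 : Tendsto (fun k : ℕ => δ / 2 ^ k) atTop (𝓝 0) :=
      tendsto_const_nhds.div_atTop (tendsto_pow_atTop_atTop_of_one_lt one_lt_two)
    exact sub_eq_zero.1 (norm_le_zero_iff.1 (le_of_tendsto_of_tendsto' t1 t2 fun k => hu k s m))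
  · rw [← dist_eq_norm, dist_comm]
    exact dist_le_of_le_geometric_two_of_tendsto₀ hd hx

/-- Change of origin and scale. -/
theorem rescale (α : G →* (H ≃ᵃⁱ[ℂ] H)) (S : Finset G) (R : ℝ)
    (h : ∃ u r, 0 < r ∧ (∀ s ∈ S, ‖α s u - u‖ ≤ r) ∧
      ∀ w, ‖w - u‖ ≤ R * r → ∃ s ∈ S, r / 2 ≤ ‖α s w - w‖) :
    ∃ β : G →* (H ≃ᵃⁱ[ℂ] H), (∀ s ∈ S, ‖β s 0 - 0‖ ≤ 1) ∧
      ∀ w : H, ‖w‖ ≤ R → ∃ s ∈ S, 1 / 2 ≤ ‖β s w - w‖ := by
  obtain ⟨u, r, h0, h1, h2⟩ := h
  have e : ∀ x : H, ‖(r : ℂ) • x‖ = r * ‖x‖ := fun x => by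
    rw [norm_smul, Complex.norm_real, Real.norm_of_nonneg h0.le]
  have r0 : (r : ℂ) ≠ 0 := Complex.ofReal_ne_zero.2 h0.ne'
  let β := aff (lin α) (fun g => (r : ℂ)⁻¹ • (α g u - u)) fun g h => by
    rw [act_coc, smul_add, map_smul]
  have k : ∀ s w, r * ‖β s w - w‖ = ‖α s ((r : ℂ) • w + u) - ((r : ℂ) • w + u)‖ := fun s w => by
    rw [← e, aff_apply, act_add, map_smul, smul_sub, smul_add, smul_inv_smul₀ r0]
    congr 1
    abel
  refine ⟨β, fun s m => le_of_mul_le_mul_left ?_ h0, fun w hw => ?_⟩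
  · rw [k, smul_zero, zero_add, mul_one]
    exact h1 s m
  · obtain ⟨s, m, hs⟩ := h2 ((r : ℂ) • w + u) (by
      rw [add_sub_cancel_right, e, mul_comm]
      exact mul_le_mul_of_nonneg_right hw h0.le)
    refine ⟨s, m, le_of_mul_le_mul_left ?_ h0⟩
    rw [k]
    linarith

end One

theorem AFP.fh [hG : Group.FG G] (h : AFP G) : FH G := fun H _ _ _ α => by
  obtain ⟨S, hS⟩ := hG.out
  by_contra hn
  have : ∀ n : ℕ, ∃ β : G →* (H ≃ᵃⁱ[ℂ] H), (∀ s ∈ S, ‖β s 0 - 0‖ ≤ 1) ∧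
      ∀ w : H, ‖w‖ ≤ n → ∃ s ∈ S, 1 / 2 ≤ ‖β s w - w‖ := fun n =>
    rescale α S n ((fix_or α S n 0 (δ := 1 + ∑ s ∈ S, ‖α s 0 - 0‖) (by positivity) fun s m =>
      (Finset.single_le_sum (f := fun s => ‖α s 0 - 0‖) (fun _ _ => norm_nonneg _) m).trans
        (by linarith)).resolve_left fun ⟨x, hx, _⟩ =>
      hn ⟨x, fun g => fix_closure α hx (hS ▸ Subgroup.mem_top g)⟩)
  choose β b1 b2 using this
  exact ultra_not_afp (H := fun _ => H) S hS β b1 b2 h

theorem AFP.hasT [hG : Group.FG G] (h : AFP G) : HasT G := by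
  obtain ⟨S, hS⟩ := hG.out
  by_contra hn
  have : ∀ n : ℕ, ∃ (H : Type) (_ : NormedAddCommGroup H) (_ : InnerProductSpace ℂ H)
      (β : G →* (H ≃ᵃⁱ[ℂ] H)), (∀ s ∈ S, ‖β s 0 - 0‖ ≤ 1) ∧
      ∀ w : H, ‖w‖ ≤ n → ∃ s ∈ S, 1 / 2 ≤ ‖β s w - w‖ := fun n => by
    have p : (0 : ℝ) < 1 / (2 * n + 1) := by positivity
    have : ¬Kaz S (1 / (2 * n + 1)) := fun k => hn ⟨S, _, p, k⟩
    simp only [Kaz, not_forall] at this
    obtain ⟨H, i1, i2, i3, π, v, h1, h2, h3⟩ := this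
    let α := aff π (fun _ => 0) fun _ _ => by simp
    have e : ∀ g x, α g x = π g x := fun g x => add_zero _
    refine ⟨H, i1, i2, rescale α S n ((fix_or α S n v p fun s m => ?_).resolve_left ?_)⟩
    · rw [e]
      exact (h2 s m).le
    · rintro ⟨x, hx, hd⟩
      refine h3 ⟨x, fun z => ?_, fun g => e g x ▸ fix_closure α hx (hS ▸ Subgroup.mem_top g)⟩
      rw [z, zero_sub, norm_neg, h1, mul_one_div, le_div_iff₀ (by positivity)] at hd
      linarith
  choose H i1 i2 β b1 b2 using this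
  exact ultra_not_afp (H := H) S hS β b1 b2 h

end Pool.Agent.MT
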